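import Pool.Agent.Work.MP_4a14ce_an.Final
import Pool.Agent.Work.MP_4a14ce_an.LocalUnique

/-!
# The elastic flow in hyperbolic space and in the sphere

For every `n ≥ 2` both the hyperbolic space `H^n` (hyperboloid model) and the unit sphere `S^n` have
property (SC): every smooth regular closed curve is the initial datum of a unique elastic flow on
`[0, ∞)`, and this flow converges smoothly, up to reparametrisation, to a critical point of the
elastic energy. Moreover every elastic flow on a bounded interval `[0, T)` is the restriction of
the global one with the same initial datum.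
-/

namespace Pool.Agent.Results.MP_4a14ce_an.SpaceForms

open Pool.Agent.Work.MP_4a14ce_an

theorem result : ∀ n : ℕ, 2 ≤ n → (SC (-1) n ∧ LU (-1) n) ∧ (SC 1 n ∧ LU 1 n) :=
  fun n _ => ⟨⟨final n (-1) (Or.inr rfl), localUnique n (-1) (Or.inr rfl)⟩,
    ⟨final n 1 (Or.inl rfl), localUnique n 1 (Or.inl rfl)⟩⟩

end Pool.Agent.Results.MP_4a14ce_an.SpaceForms
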